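import Pool.Agent.LarH.ProbPi

/-!
# The Fourier lemma (Larman project, abstract form; helper46)

`E_a ∏_k h·1[c_k + ∑_{i ∈ Fr} a_i M_{k i} = 0 in Z/h] = 1 ± ((1 + h ρ)^|T| - 1)`.
-/

set_option autoImplicit false
set_option linter.unusedSectionVars false

namespace Pool.LarE

open Finset Pool.LarProb

section

variable {h : ℕ} [NeZero h]

/-- an additive character of a finite sum -/
theorem addChar_sum {J : Type*} (s : Finset J) (f : J → ZMod h) :
    (ZMod.stdAddChar (∑ j ∈ s, f j) : ℂ) = ∏ j ∈ s, (ZMod.stdAddChar (f j) : ℂ) := by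
  classical
  induction s using Finset.induction_on with
  | empty => simp
  | insert j s hj ih => rw [Finset.sum_insert hj, Finset.prod_insert hj, AddChar.map_add_eq_mul, ih]

variable {I : Type*} [Fintype I] [DecidableEq I]

/-- complex product rule over a finset of coordinates -/
theorem sum_PW_prod_complex {w : I → Bool → ℝ} (hw : ∀ i, IsP (w i)) (s : Finset I)
    (g : I → Bool → ℂ) :
    ∑ ω : I → Bool, ((PW (A := fun _ => Bool) w ω : ℝ) : ℂ) * ∏ i ∈ s, g i (ω i)
      = ∏ i ∈ s, ∑ x, (w i x : ℂ) * g i x := by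
  have h1 : ∀ ω : I → Bool, ((PW (A := fun _ => Bool) w ω : ℝ) : ℂ) * ∏ i ∈ s, g i (ω i)
      = ∏ i, ((w i (ω i) : ℂ) * (if i ∈ s then g i (ω i) else 1)) := by
    intro ω
    rw [Finset.prod_mul_distrib, Finset.prod_ite_mem, Finset.univ_inter]
    congr 1
    unfold PW
    push_cast
    rfl
  rw [Finset.sum_congr rfl (fun ω _ => h1 ω)]
  have h2 := (Finset.prod_univ_sum (fun _ : I => (univ : Finset Bool))
    (fun i x => (w i x : ℂ) * (if i ∈ s then g i x else 1)))
  rw [Fintype.piFinset_univ] at h2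
  rw [← h2]
  have h3 : ∀ i, ∑ x, (w i x : ℂ) * (if i ∈ s then g i x else 1)
      = if i ∈ s then ∑ x, (w i x : ℂ) * g i x else 1 := by
    intro i
    by_cases hi : i ∈ s
    · simp [hi]
    · simp only [hi, if_false, mul_one]
      have := (hw i).sum_one
      exact_mod_cast this
  rw [Finset.prod_congr rfl (fun i _ => h3 i), Finset.prod_ite_mem, Finset.univ_inter]

variable {T : Type*} [Fintype T] [DecidableEq T]

/-- the character expansion of one congruence -/
theorem ind_eq_char_sum (y : ZMod h) :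
    (((h : ℝ) * ind (y = 0) : ℝ) : ℂ) = ∑ x : ZMod h, (ZMod.stdAddChar (x * y) : ℂ) := by
  rw [AddChar.sum_mulShift y (ZMod.isPrimitive_stdAddChar h)]
  by_cases hy : y = 0
  · rw [if_pos hy, ind_true hy, ZMod.card]; push_cast; ring
  · rw [if_neg hy, ind_false hy]; push_cast; ring

/-- FOURIER LEMMA, abstract form. -/
theorem fourier_main {w : I → Bool → ℝ} (hw : ∀ i, IsP (w i)) (Fr : Finset I)
    (hfair : ∀ i ∈ Fr, ∀ x, w i x = 1 / 2) (c : T → ZMod h) (M : T → I → ZMod h) {ρ : ℝ}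
    (hM : ∀ χ : T → ZMod h, χ ≠ 0 →
      ∏ i ∈ Fr, ‖(1 + (ZMod.stdAddChar (∑ k, χ k * M k i) : ℂ)) / 2‖ ≤ ρ ^ (univ.filter (fun k => χ k ≠ 0)).card) :
    |Ex (PW (A := fun _ => Bool) w) (fun a => ∏ k, ((h : ℝ) *
        ind (c k + ∑ i ∈ Fr, (if a i then M k i else 0) = 0))) - 1|
      ≤ (1 + ((h : ℝ) - 1) * ρ) ^ Fintype.card T - 1 := by
  classical
  -- the complex expansion
  have key : ((Ex (PW (A := fun _ => Bool) w) (fun a => ∏ k, ((h : ℝ) *
        ind (c k + ∑ i ∈ Fr, (if a i then M k i else 0) = 0))) : ℝ) : ℂ)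
      = ∑ χ : T → ZMod h, (ZMod.stdAddChar (∑ k, χ k * c k) : ℂ) *
          ∏ i ∈ Fr, ((1 + ZMod.stdAddChar (∑ k, χ k * M k i) : ℂ) / 2) := by
    have h1 : ∀ a : I → Bool, ((∏ k, ((h : ℝ) *
        ind (c k + ∑ i ∈ Fr, (if a i then M k i else 0) = 0)) : ℝ) : ℂ)
        = ∑ χ : T → ZMod h, (ZMod.stdAddChar (∑ k, χ k * c k) : ℂ) *
          ∏ i ∈ Fr, (if a i then (ZMod.stdAddChar (∑ k, χ k * M k i) : ℂ) else 1) := by
      intro a
      push_cast
      have h2 : ∀ k, ((h : ℂ) * ((ind (c k + ∑ i ∈ Fr, (if a i then M k i else 0) = 0) : ℝ) : ℂ))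
          = ∑ x : ZMod h,
            (ZMod.stdAddChar (x * (c k + ∑ i ∈ Fr, (if a i then M k i else 0))) : ℂ) := by
        intro k
        rw [← ind_eq_char_sum]
        push_cast
        rfl
      rw [Finset.prod_congr rfl (fun k _ => h2 k)]
      have h3 := (Finset.prod_univ_sum (fun _ : T => (univ : Finset (ZMod h)))
        (fun k x => (ZMod.stdAddChar (x * (c k + ∑ i ∈ Fr, (if a i then M k i else 0))) : ℂ)))
      rw [Fintype.piFinset_univ] at h3
      rw [h3]
      refine Finset.sum_congr rfl (fun χ _ => ?_)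
      have h4 : ∏ k, (ZMod.stdAddChar (χ k * (c k + ∑ i ∈ Fr, (if a i then M k i else 0))) : ℂ)
          = ZMod.stdAddChar (∑ k, χ k * (c k + ∑ i ∈ Fr, (if a i then M k i else 0))) := by
        rw [addChar_sum]
      rw [h4]
      have h5 : ∑ k, χ k * (c k + ∑ i ∈ Fr, (if a i then M k i else 0))
          = (∑ k, χ k * c k) + ∑ i ∈ Fr, (if a i then ∑ k, χ k * M k i else 0) := by
        simp only [mul_add, Finset.sum_add_distrib, Finset.mul_sum]
        congr 1
        rw [Finset.sum_comm]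
        refine Finset.sum_congr rfl (fun i _ => ?_)
        by_cases ha : a i
        · simp [ha]
        · simp [ha]
      have h5' : (ZMod.stdAddChar (∑ i ∈ Fr, (if a i then ∑ k, χ k * M k i else 0)) : ℂ)
          = ∏ i ∈ Fr, (if a i then (ZMod.stdAddChar (∑ k, χ k * M k i) : ℂ) else 1) := by
        rw [addChar_sum]
        refine Finset.prod_congr rfl (fun i _ => ?_)
        by_cases ha : a i
        · simp [ha]
        · simp [ha]
      rw [h5, AddChar.map_add_eq_mul, h5']
    have h6 : ((Ex (PW (A := fun _ => Bool) w) (fun a => ∏ k, ((h : ℝ) *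
        ind (c k + ∑ i ∈ Fr, (if a i then M k i else 0) = 0))) : ℝ) : ℂ)
        = ∑ a : I → Bool, ((PW (A := fun _ => Bool) w a : ℝ) : ℂ) *
          ((∏ k, ((h : ℝ) * ind (c k + ∑ i ∈ Fr, (if a i then M k i else 0) = 0)) : ℝ) : ℂ) := by
      unfold Ex
      push_cast
      rfl
    rw [h6]
    rw [Finset.sum_congr rfl (fun a _ => by rw [h1 a])]
    simp only [Finset.mul_sum]
    rw [Finset.sum_comm]
    refine Finset.sum_congr rfl (fun χ _ => ?_)
    have h7 := sum_PW_prod_complex hw Fr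
      (fun i x => if x then (ZMod.stdAddChar (∑ k, χ k * M k i) : ℂ) else 1)
    have h8 : ∏ i ∈ Fr, ∑ x, (w i x : ℂ) *
          (if x then (ZMod.stdAddChar (∑ k, χ k * M k i) : ℂ) else 1)
        = ∏ i ∈ Fr, ((1 + ZMod.stdAddChar (∑ k, χ k * M k i) : ℂ) / 2) := by
      refine Finset.prod_congr rfl (fun i hi => ?_)
      rw [Fintype.sum_bool, hfair i hi true, hfair i hi false]
      push_cast
      simp
      ring
    rw [← h8, ← h7, Finset.mul_sum]
    refine Finset.sum_congr rfl (fun a _ => ?_)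
    ring
  -- split off the zero character
  have hzero : (ZMod.stdAddChar (∑ k, (0 : T → ZMod h) k * c k) : ℂ) *
      ∏ i ∈ Fr, ((1 + ZMod.stdAddChar (∑ k, (0 : T → ZMod h) k * M k i) : ℂ) / 2) = 1 := by
    simp
  have hsub : (((Ex (PW (A := fun _ => Bool) w) (fun a => ∏ k, ((h : ℝ) *
        ind (c k + ∑ i ∈ Fr, (if a i then M k i else 0) = 0))) - 1 : ℝ)) : ℂ)
      = ∑ χ ∈ univ.erase (0 : T → ZMod h), (ZMod.stdAddChar (∑ k, χ k * c k) : ℂ) *
          ∏ i ∈ Fr, ((1 + ZMod.stdAddChar (∑ k, χ k * M k i) : ℂ) / 2) := by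
    push_cast
    rw [key, ← Finset.add_sum_erase univ _ (Finset.mem_univ (0 : T → ZMod h)), hzero]
    ring
  have hnorm : |Ex (PW (A := fun _ => Bool) w) (fun a => ∏ k, ((h : ℝ) *
        ind (c k + ∑ i ∈ Fr, (if a i then M k i else 0) = 0))) - 1|
      ≤ ∑ χ ∈ univ.erase (0 : T → ZMod h), ρ ^ (univ.filter (fun k => χ k ≠ 0)).card := by
    rw [← Real.norm_eq_abs, ← Complex.norm_real, hsub]
    refine (norm_sum_le _ _).trans (Finset.sum_le_sum (fun χ hχ => ?_))
    refine le_trans (le_of_eq ?_) (hM χ (Finset.ne_of_mem_erase hχ))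
    rw [norm_mul, norm_prod]
    have h9 : ‖(ZMod.stdAddChar (∑ k, χ k * c k) : ℂ)‖ = 1 := by
      rw [ZMod.stdAddChar_apply]; exact Circle.norm_coe _
    rw [h9, one_mul]
  refine hnorm.trans (le_of_eq ?_)
  -- the sum over the characters
  have h10 : ∀ χ : T → ZMod h, ρ ^ (univ.filter (fun k => χ k ≠ 0)).card
      = ∏ k, (if χ k = 0 then 1 else ρ) := by
    intro χ
    rw [Finset.prod_ite]
    simp
  have h11 : ∑ χ : T → ZMod h, ρ ^ (univ.filter (fun k => χ k ≠ 0)).card
      = (1 + ((h : ℝ) - 1) * ρ) ^ Fintype.card T := by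
    rw [Finset.sum_congr rfl (fun χ _ => h10 χ)]
    have h12 := (Finset.prod_univ_sum (fun _ : T => (univ : Finset (ZMod h)))
      (fun (_ : T) x => (if x = 0 then (1 : ℝ) else ρ)))
    rw [Fintype.piFinset_univ] at h12
    rw [← h12, Finset.prod_const, Finset.card_univ]
    congr 1
    rw [Finset.sum_ite]
    simp only [Finset.sum_const, nsmul_eq_mul, mul_one]
    have h13 : (univ.filter (fun x : ZMod h => x = 0)).card = 1 := by
      rw [Finset.filter_eq' univ 0, if_pos (Finset.mem_univ _), Finset.card_singleton]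
    have h14 : (univ.filter (fun x : ZMod h => ¬ x = 0)).card = h - 1 := by
      have := Finset.card_filter_add_card_filter_not (s := (univ : Finset (ZMod h)))
        (fun x => x = 0)
      rw [h13, Finset.card_univ, ZMod.card] at this
      omega
    rw [h13, h14]
    have hpos : 1 ≤ h := Nat.one_le_iff_ne_zero.2 (NeZero.ne h)
    push_cast [Nat.cast_sub hpos]
    ring
  rw [← h11, ← Finset.add_sum_erase univ _ (Finset.mem_univ (0 : T → ZMod h))]
  simp

end

end Pool.LarE
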